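import Pool.Agent.Lib.MP_5684f0_lc.T.Sum

/-! Plays that keep the boards that are not protected inside fixed sets, through all layers. -/

namespace Pool.Agent.Lib.MP_5684f0_lc.Q

open Filter Topology Set PiNat G T

variable {D α : Type} {O N : ℕ → Set (Y D)} {p p' : Y D → ℕ → α} [Inhabited D] {I : Type}

/-- All moves are legal and clean. -/
def Ply (N : ℕ → Set (Y D)) (p : Y D → ℕ → α) (f : ℕ → Hi D → Out O) (π : Hi D) : Prop :=
  ∀ t, (ans p π t (f t)).Lg (π t) ∧ (ans p π t (f t)).Cn N (π t)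

theorem le_b (hO : Opn O) {f : ℕ → Hi D → Out O} {π : Hi D}
    (H : ∀ t, (ans p π t (f t)).Lg (π t)) (h : ℕ) : (f 0 default).b ≤ (ans p π h (f h)).b := by
  induction h with
  | zero => exact le_rfl
  | succ h ih =>
    have h1 := (ans_rs (p := p) hO (H h) (f (h + 1))).2
    have h3 := (H h).2.2
    have h4 := (ans p π h (f h)).ok.1
    omega

/-- What a transformation of strategies has to do. -/
structure Spc (N : ℕ → Set (Y D)) (L : Lay) (c : ℕ) (C : Kl) (p p' : Y D → ℕ → α) {I : Type}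
    (Φ : Str O I → Str O I) : Prop where
  cau : ∀ τ τ' t, (∀ j ≤ t, τ j = τ' j) → Φ τ t = Φ τ' t
  ini : ∀ τ y i, Φ τ 0 y i default = τ 0 y i default
  cls : ∀ τ, C c _ (τ 0) → (∀ j, Ms L c C (c + j) _ (τ j)) → ∀ t, C (c + t) _ (Φ τ t)
  ply : ∀ τ, (∀ j, Ms L c C (c + j) _ (τ j)) → ∀ y i π', c ≤ (τ 0 y i default).b →
    Ply N p' (fun t => Φ τ t y i) π' → ∃ π, Ply N p (fun t => τ t y i) π ∧ Tr p' π π'

theorem spec_zero (hO : Opn O) {c : ℕ} {C : Kl} (hC : Good C) (hp : Lip p p') (I : Type) :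
    ∃ Φ : Str O I → Str O I, Spc N .zero c C p p' Φ := by
  refine ⟨fun τ t y i π => ans p π t (τ t y i), fun τ τ' t h => by rw [h t le_rfl],
    fun _ _ _ => rfl, fun τ _ h t => hC.map (fun a i π => ans p π t (a i)) (h t),
    fun τ _ y i π _ h => ⟨π, fun t => ?_, fun t => ⟨le_rfl, fun _ _ => self_mem_cylinder _ _⟩⟩⟩
  have h1 := h t
  rcases t with _ | t
  · exact h1
  · have e := ans_congr (p := p) (π := cut (t + 1) π) (π' := π) (t := t + 1)
      (fun i hi => if_pos hi) (τ (t + 1) y i)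
    simp only [ans.eq_2 p'] at h1
    rwa [e, val_of ((ans_rs hO (h t).1 _).lip hp)] at h1

/-- Every point of board `j` agrees at level `p`, up to `j`, with a point of the clean set. -/
def Sm (O N : ℕ → Set (Y D)) (p : Y D → ℕ → α) : Prop :=
  ∀ j, ∀ y ∈ O j, ∃ z l, j ≤ l ∧ cylinder z l ⊆ N j ∩ O j ∧ p y ∈ cylinder (p z) l

theorem spec_one' [Inhabited (Out O)] (hO : Opn O) {c : ℕ} {C : Kl} (hC : Good C) (hp : Lip id p)
    (hT : Tower .one c p p') (hN : Sm O N p) (I : Type) :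
    ∃ Φ : Str O I → Str O I, Spc N .one c C p p' Φ := by
  obtain ⟨Φ, h1, h2⟩ := spec_one (N := fun j => if j < c then O j else N j) hO hC hp hT.1 hT.2
    (fun j y hy M => by
      by_cases hj : j < c
      · exact ⟨y, ⟨by rwa [if_pos hj], hy⟩, self_mem_cylinder _ _⟩
      · obtain ⟨z, l, a, b, d⟩ := hN j y hy
        obtain ⟨x, x1, x2⟩ := hT.2 y z l M (by omega) d
        exact ⟨x, by rw [if_neg hj]; exact b x1, x2⟩) I
  refine ⟨Φ, h1.cau, h1.ini, h1.cls, fun τ a y i π' b d => ?_⟩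
  obtain ⟨π, e1, e2⟩ := h2 τ a y i π' (b.trans (τ 0 y i default).ok.1) fun t => (d t).1
  refine ⟨π, fun t => ⟨(e1 t).1, fun j hj => ?_⟩, e2⟩
  have := le_b (f := fun t => τ t y i) hO (fun t => (e1 t).1) t
  have h3 := (e1 t).2 j hj
  dsimp only at h3 hj this
  rwa [if_neg (by omega)] at h3

theorem spec_sum (hO : Opn O) {L : ℕ → Lay} {c : ℕ} {C : Kl} (hC : Good C)
    {q : ℕ → Y D → ℕ → α} (hq : ∀ n, Lip p (q n)) (hq' : ∀ n, Lip (q (n + 1)) (q n))
    {Φ : ℕ → Str O (I × Hi D) → Str O (I × Hi D)}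
    (hΦ : ∀ n, Spc N (L n) (c + n + 1) (Cp L c C n) (q (n + 1)) (q n) (Φ n)) :
    ∃ Ψ : Str O I → Str O I, Spc N (.sum L) c C p (q 0) Ψ := by
  obtain ⟨g1, g2⟩ := hC.cp (L := L) (c := c)
  let σ : Str O I → ℕ → Str O (I × Hi D) := fun τ n t => fu p Φ τ t n t
  have e0 : ∀ τ n, σ τ n 0 = fun y i _ => ans p i.2 n (τ n y i.1) := fun _ _ => rfl
  have e1 : ∀ τ n t, σ τ n (t + 1) = fun y i π => Φ n (σ τ (n + 1)) t y
      (i.1, Function.update i.2 n (π 0)) fun j => π (j + 1) := fun τ n t => by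
    simp only [σ, fu]
    rw [(hΦ n).cau _ _ t fun j hj => fu_congr (fun n => (hΦ n).cau) j (n + 1) t j hj le_rfl
      fun _ _ => rfl]
  have c0 : ∀ τ : Str O I, (∀ j, Ms (.sum L) c C (c + j) _ (τ j)) → ∀ n,
      Cp L c C (n - 1) (c + n) _ (σ τ n 0) := fun τ h n => by
    have h1 : Cp L c C (c + n - (c + 1)) (c + n) _ (τ n) := h n
    rw [show c + n - (c + 1) = n - 1 by omega] at h1
    exact (g1 _).map (fun a (i : I × Hi D) (_ : Hi D) => ans p i.2 n (a i.1)) h1
  have c1 : ∀ τ : Str O I, (∀ j, Ms (.sum L) c C (c + j) _ (τ j)) → ∀ t n,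
      Cp L c C n (c + n + t) _ (σ τ n t) := fun τ h t => by
    induction t using Nat.strong_induction_on with
    | _ t ih =>
    intro n
    rcases t with _ | t
    · exact g2 _ _ (Nat.sub_le n 1) _ _ _ (c0 τ h n)
    have h1 := (hΦ n).cls (fun j => if j ≤ t then σ τ (n + 1) j else σ τ (n + 1) 0)
      (c0 τ h (n + 1)) (fun j => by
        split_ifs with hj
        exacts [ih j (by omega) (n + 1), (g1 (n + 1)).mono (by omega) (ih 0 (by omega) (n + 1))]) t
    rw [(hΦ n).cau _ (σ τ (n + 1)) t fun j hj => if_pos hj] at h1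
    rw [e1, show c + n + (t + 1) = c + n + 1 + t by omega]
    exact (g1 n).map (fun a (i : I × Hi D) (π : Hi D) =>
      a (i.1, Function.update i.2 n (π 0)) fun j => π (j + 1)) h1
  refine ⟨fun τ t y i => σ τ 0 t y (i, default), fun τ τ' t h => by
      simp only [σ, fu_congr (fun n => (hΦ n).cau) t 0 t t le_rfl le_rfl (by simpa using h)],
    fun _ _ _ => rfl, fun τ _ h t => hC.map (fun a i => a (i, default)) (c1 τ h t 0),
    fun τ h y i π0 h1 h2 => ?_⟩
  let T := fun n => {w : Hi D × Hi D // c + n ≤ (ans p w.1 n (τ n y i)).b ∧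
    Ply N (q n) (fun t => σ τ n t y (i, w.1)) w.2}
  have step : ∀ n (w : T n), ∃ w' : T (n + 1), w'.1.1 = Function.update w.1.1 n (w.1.2 0) ∧
      Tr (q n) w'.1.2 fun j => w.1.2 (j + 1) := by
    rintro n ⟨⟨H, π⟩, a1, a2⟩
    dsimp only at a1 a2 ⊢
    have a3 : (ans p H n (τ n y i)).Lg (π 0) := (a2 0).1
    have a4 : Rs p (π 0) (ans p (Function.update H n (π 0)) (n + 1) (τ (n + 1) y i)) := by
      have := ans_rs (p := p) hO (π := Function.update H n (π 0)) (t := n)
        (by rwa [Function.update_self]) (τ (n + 1) y i)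
      rwa [Function.update_self] at this
    have a5 : c + (n + 1) ≤ (ans p (Function.update H n (π 0)) (n + 1) (τ (n + 1) y i)).b := by
      have := a4.2
      have := a3.2.2
      have := (ans p H n (τ n y i)).ok.1
      omega
    obtain ⟨π', b1, b2⟩ := (hΦ n).ply (σ τ (n + 1)) (fun j => c1 τ h j (n + 1)) y
      (i, Function.update H n (π 0)) (fun j => π (j + 1)) a5 fun t => by
        have b0 := a2 (t + 1)
        have b1 : cut (t + 1) π 0 = π 0 := if_pos (Nat.succ_pos t)
        have b2 : (fun j => cut (t + 1) π (j + 1)) = cut t fun j => π (j + 1) :=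
          funext fun j => by simp [cut]
        simp only [e1, ans.eq_2 (q n), b1, b2] at b0
        rcases t with _ | t
        · rw [show cut 0 (fun j => π (j + 1)) = default from rfl, (hΦ n).ini, e0,
            val_of (a4.lip (hq n))] at b0
          simpa only [ans, (hΦ n).ini, e0] using b0
        · exact b0
    exact ⟨⟨(_, π'), a5, b1⟩, rfl, b2⟩
  choose F F1 F2 using step
  let w : ∀ n, T n := fun n => Nat.rec (motive := T) ⟨(default, π0), h1, h2⟩ F n
  have w1 : ∀ n, ∀ j < n, (w n).1.1 j = (w j).1.2 0 := fun n => by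
    induction n with
    | zero => exact fun j hj => absurd hj (Nat.not_lt_zero j)
    | succ n ih =>
      intro j hj
      rw [show (w (n + 1)).1.1 = _ from F1 n (w n)]
      rcases (Nat.lt_succ_iff.1 hj).eq_or_lt with rfl | hj
      exacts [Function.update_self .., (Function.update_of_ne hj.ne _ _).trans (ih j hj)]
  have w2 : ∀ n, Lip (q n) (q 0) := fun n => by
    induction n with
    | zero => exact fun _ _ _ h => h
    | succ n ih => exact fun _ _ _ h => ih (hq' n h)
  have w3 : ∀ n s, (π0 (n + s)).2 ≤ ((w n).1.2 s).2 ∧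
      Agr (q 0) ((w n).1.2 s).1 (π0 (n + s)).1 (π0 (n + s)).2 := fun n => by
    induction n with
    | zero =>
      intro s
      rw [Nat.zero_add]
      exact ⟨le_rfl, fun _ _ => self_mem_cylinder _ _⟩
    | succ n ih =>
      intro s
      have h3 := F2 n (w n) s
      have h4 := ih (s + 1)
      rw [show n + 1 + s = n + (s + 1) by omega]
      exact ⟨h4.1.trans h3.1, Agr.trans (fun m hm => w2 n (h3.2 m hm)) h4.2 h4.1⟩
  refine ⟨fun n => (w n).1.2 0, fun n => ?_, fun n => w3 n 0⟩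
  rw [ans_congr (π' := (w n).1.1) fun j hj => (w1 n j hj).symm]
  exact (w n).2.2 0

theorem exists_spec [Inhabited (Out O)] (hO : Opn O) (L : Lay) : ∀ (c : ℕ) {C : Kl}
    {p p' : Y D → ℕ → α} (I : Type), Good C → Lip id p → Tower L c p p' → Sm O N p →
    ∃ Φ : Str O I → Str O I, Spc N L c C p p' Φ := by
  induction L with
  | zero => exact fun c C p p' I hC _ h _ => spec_zero hO hC h I
  | one => exact fun c C p p' I hC hp h hN => spec_one' hO hC hp h hN I
  | sum L ih =>
    rintro c C p p' I hC hp ⟨q, rfl, h⟩ hN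
    choose Φ hΦ using fun n => ih n (c + n + 1) (I × Hi D) ((hC.cp (L := L) (c := c)).1 n)
      (fun _ _ _ h' => (h (n + 1)).1 (hp h')) (h n).2 fun j y hy =>
        (hN j y hy).imp fun _ a => a.imp fun _ a => ⟨a.1, a.2.1, (h (n + 1)).1 a.2.2⟩
    exact spec_sum hO hC (fun n => (h n).1) (fun n => (h n).2.lip) hΦ

theorem run0 (hO : Opn O) {L : Lay} (hp : Lip id p) (hT : Tower L 0 p p') (hN : Sm O N p) {τ : Str O Unit}
    (h0 : C0 0 _ (τ 0)) (h1 : ∀ j, Ms L 0 C0 (0 + j) _ (τ j)) {G : Cs → (ℕ → Y D) → Prop}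
    (hw : ∀ y π, Ply N p (fun t => τ t y ()) π → ∃ z, G y z ∧ ∀ t, Agr p z (π t).1 (π t).2) :
    ∃ w : Cs → ℕ → Y D, (∀ m n, LC univ fun y => p' (w y m) n) ∧ ∀ y, G y (w y) := by
  let _ : Inhabited (Out O) := ⟨τ 0 default () default⟩
  obtain ⟨Φ, hΦ⟩ := exists_spec hO L 0 Unit good_C0 hp hT hN
  have h2 := hΦ.cls τ h0 h1
  choose n0 l0 _ hn _ using fun j => hN j _ ((default : Out O).ok.2.1 j)
  let mv : Out O → Mv D := fun o => (fun j => if j < o.b then o.x j else n0 j, o.l)
  have hm : ∀ o : Out O, o.Lg (mv o) ∧ o.Cn N (mv o) := fun o => ⟨⟨fun j hj => by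
    simp only [mv, if_pos hj]; exact self_mem_cylinder _ _, fun j => by
      simp only [mv]; split_ifs
      exacts [o.ok.2.1 j, (hn j (self_mem_cylinder _ _)).2], le_rfl⟩, fun j hj => by
    simp only [mv, if_neg (not_lt.2 hj)]; exact (hn j (self_mem_cylinder _ _)).1⟩
  let P : Cs → ℕ → Hi D := fun y t => Nat.rec default (fun t π => Function.update π t
    (mv (ans p' π t (Φ τ t y ())))) t
  have hP : ∀ y t, P y (t + 1) = Function.update (P y t) t
    (mv (ans p' (P y t) t (Φ τ t y ()))) := fun _ _ => rfl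
  have hlc : ∀ t, LC univ fun y => P y t := by
    intro t
    induction t with
    | zero => exact fun y _ => Eventually.of_forall fun _ => rfl
    | succ t ih =>
      intro y hy
      filter_upwards [ih y hy, h2 t y hy] with y' h1 h2
      rw [hP, hP, h1, h2]
  have h3 : ∀ y t, ∀ j < t, P y t j = P y (j + 1) j := fun y t => by
    induction t with
    | zero => exact fun j hj => absurd hj (Nat.not_lt_zero j)
    | succ t ih =>
      intro j hj
      rcases (Nat.lt_succ_iff.1 hj).eq_or_lt with rfl | hj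
      exacts [rfl, (Function.update_of_ne hj.ne _ _).trans (ih j hj)]
  have h4 : ∀ y, Ply N p' (fun t => Φ τ t y ()) fun t => P y (t + 1) t := fun y t => by
    rw [ans_congr (π' := P y t) fun j hj => (h3 y t j hj).symm]
    simp only [hP, Function.update_self]
    exact hm _
  have h5 : ∀ y, ∃ z, G y z ∧ ∀ t, Agr p' z (P y (t + 1) t).1 (P y (t + 1) t).2 := fun y => by
    obtain ⟨π, a, b⟩ := hΦ.ply τ h1 y () _ (Nat.zero_le _) (h4 y)
    obtain ⟨z, z1, z2⟩ := hw y π a
    exact ⟨z, z1, fun t => Agr.trans (fun m hm => hT.lip (z2 t m hm)) (b t).2 (b t).1⟩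
  choose w w1 w2 using h5
  have hl : ∀ y t, t ≤ (P y (t + 1) t).2 := fun y t =>
    ((Nat.le_add_left t _).trans (Fn.le hO fun s _ => (h4 y s).1)).trans (h4 y t).1.2.2
  refine ⟨w, fun m n y hy => ?_, w1⟩
  have e := fun y => w2 y (max m n + 1) m (by have := hl y (max m n + 1); omega) n
    (by have := hl y (max m n + 1); omega)
  filter_upwards [hlc (max m n + 1 + 1) y hy] with y' h
  exact (e y').trans (h ▸ (e y).symm)

end Pool.Agent.Lib.MP_5684f0_lc.Q
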