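import Pool.Agent.Lib.MP_5684f0_lc.Q.Low
import Pool.Agent.Lib.MP_5684f0_lc.I.One

/-! The statement of `Hausdorff` implies the pure dichotomy, hence the statement of `Successor`. -/

namespace Pool.Agent.Lib.MP_5684f0_lc.Q.Low

open Filter Topology Set T

/-- The statement of `Hausdorff`. -/
def Ha : Prop :=
  ∀ (L : Lay) (f π : Cs → Cs) (c : Cs), (∀ x y, leT c x → leT x y → leM (f x) (f y)) →
    (∀ x, leT c x → leT (π x) x ∧ leT x (π x)) →
    (∀ a, {x | f (π x) a = true} ∈ Cl .one (Cl L {U | IsClopen U})) →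
    ∀ η : Ordinal.{0}, η < Ordinal.omega 1 → ∀ b : Bool,
    (∀ g : Cs → Cs, (∀ a, I.Pr (Cl L {U | IsClopen U}) η b {x | g x a = true}) → leCone g f) ∨
      ∃ g : Cs → Cs, (∀ a, I.Pr (Cl L {U | IsClopen U}) η (!b) {x | g x a = true}) ∧ leCone f g

theorem pu_of_ha (H : Ha) : Pu := fun L f π c hop hT hb =>
  (H L f π c hop hT hb 1 (by
    simpa using Ordinal.natCast_lt_omega0 1 |>.trans Ordinal.omega0_lt_omega_one) false).imp
    (fun h g hg => h g fun a => I.pr_one.2 (hg a)) fun ⟨g, h1, h2⟩ =>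
      ⟨cpl g, fun a => by
        convert I.pr_one'.1 (h1 a) using 1
        ext x
        simp [cpl], by rwa [cpl_cpl]⟩

end Pool.Agent.Lib.MP_5684f0_lc.Q.Low
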