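import Pool.Agent.Lib.MP_5684f0_lc.T.Defs

/-!
The statement of the hand-in `Least` follows from the statement of `Successor` (proof by helper93).
Only the definitions are imported.
-/

namespace Pool.Agent.Lib.MP_5684f0_lc.Q.Impl

open Filter Topology Set

/-- The statement of `Successor`. -/
def Sc : Prop :=
  ∀ (L : T.Lay) (f π : Cs → Cs) (c : Cs), Measurable f →
    (∀ x y, leT c x → leT x y → leM (f x) (f y)) → Continuous π →
    (∀ x, leT c x → leT (π x) x ∧ leT x (π x)) →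
    (∀ a, {x | f (π x) a = true} ∈ T.Cl .one (T.Cl L {U | IsClopen U})) →
    (∀ x z v, leT c x → leT z x → T.Dec L z v → leT (G.P 0 v) (f x)) →
    ∃ b : Bool, ∀ g : Cs → Cs, (∀ a, T.Sg L {x | g x a = true}) →
      leCone (fun x n => xor (g x n) b) f

def suc (L : T.Lay) : T.Lay := .sum fun n => match n with
  | 0 => L
  | 1 => .one
  | _ + 2 => .zero

theorem sub_suc (L : T.Lay) (C : Set (Set Cs)) : T.Cl .one (T.Cl L C) ⊆ T.Cl (suc L) C :=
  fun _ h => mem_iUnion.2 ⟨2, h⟩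

theorem dec_suc {L : T.Lay} {z w : Cs} (h : T.Dec (suc L) z w) :
    ∃ v, T.Dec L z v ∧ G.P 0 w = G.P 1 v := by
  obtain ⟨v, rfl, h⟩ := h
  have h2 : ∀ q, ∀ᶠ s in atTop, v 1 (Nat.pair q s) = v 2 q := (h 1).1
  have h3 : ∀ n, v (n + 2) = v 2 := fun n => by
    induction n with
    | zero => rfl
    | succ n hn => exact ((h (n + 2)).1 : v (n + 3) = v (n + 2)).trans hn
  refine ⟨v 1, (h 0).1, ?_⟩
  have : G.T true 1 (v 1) = w := funext fun q => by
    have hw : w q = v 2 q := by rw [← (h (q + 2)).2 q (by omega), h3]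
    rw [hw, Bool.eq_iff_iff]
    have h1 : G.T true 1 (v 1) q = true ↔ ∃ᶠ t in atTop, v 1 (Nat.pair q t) = true :=
      @decide_eq_true_iff _ (Classical.propDecidable _)
    exact h1.trans ((frequently_congr ((h2 q).mono fun r hr => by rw [hr])).trans frequently_const)
  unfold G.P
  rw [this]
  rfl

/-- The statement of `Least`. -/
theorem least (R : Sc) (L : T.Lay) (f π : Cs → Cs) (c : Cs)
    (hf : Measurable f) (hop : ∀ x y, leT c x → leT x y → leM (f x) (f y)) (hπ : Continuous π)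
    (hT : ∀ x, leT c x → leT (π x) x ∧ leT x (π x))
    (hb : ∀ a, {x | f (π x) a = true} ∈ T.Cl .one (T.Cl .one (T.Cl L {U | IsClopen U})))
    (hh : ∀ x z v, leT c x → leT z x → T.Dec L z v → leT (G.P 1 v) (f x)) :
    ∃ b : Bool, ∀ g : Cs → Cs,
      (∀ a, ∃ B : ℕ → Set Cs, (∀ n, B n ∈ T.Cl .one (T.Cl L {U | IsClopen U})) ∧
        {x | g x a = true} = ⋃ n, B n) → leCone (fun x n => xor (g x n) b) f := by
  obtain ⟨b, h⟩ := R (suc L) f π c hf hop hπ hT
    (fun a => (hb a).imp fun B hB => ⟨fun s => sub_suc L _ (hB.1 s), hB.2⟩)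
    fun x z w hx hz hw => by
      obtain ⟨v, h1, h2⟩ := dec_suc hw
      exact h2 ▸ hh x z v hx hz h1
  exact ⟨b, fun g hg => h g fun a => (hg a).imp fun B hB => ⟨fun n => sub_suc L _ (hB.1 n), hB.2⟩⟩

end Pool.Agent.Lib.MP_5684f0_lc.Q.Impl
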