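import Pool.Agent.Lib.MP_5684f0_lc.N.Dir
import Pool.Agent.Lib.MP_5684f0_lc.N.Gen

/-! A function that is high for a code is not below both an additive function of that level and the
complement of one. Hence the dichotomy `Pure` implies the statement of `Successor`. -/

namespace Pool.Agent.Lib.MP_5684f0_lc.Q.Low

open Filter Topology Set PiNat G T N

theorem not_low {L : Lay} {f g1 g2 : Cs → Cs} {c : Cs}
    (hh : ∀ x z v, leT c x → leT z x → Dec L z v → leT (P 0 v) (f x))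
    (h1 : ∀ a, T.Sg L {x | g1 x a = true}) (h2 : ∀ a, T.Sg L {x | g2 x a = true})
    (e1 : leCone f (cpl g1)) (e2 : leCone f g2) : False := by
  classical
  obtain ⟨d1, e1⟩ := e1
  obtain ⟨d2, e2⟩ := e2
  obtain ⟨d0, a1, a2⟩ := exists_upper2 d1 d2
  obtain ⟨d, a3, a4⟩ := exists_upper2 c d0
  obtain ⟨ε1, hε1⟩ := U.exists_enum_rec d1
  obtain ⟨ε2, hε2⟩ := U.exists_enum_rec d2
  let pr : Y ℕ → Cs := fun y => Sc L 0 (fun a => cv y (a + 1)) (T.Hl y 1)
  have hT : Tower L 0 (T.R 1) (lev pr ∅) := tower L 0 (add_left_injective 1) (empty_subset _)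
    (fun a => ⟨Nat.le_add_left 1 a, notMem_empty _⟩) (ind_Hl 1)
  let φ : (ℕ → Y ℕ) → Cs := fun w => join (pr (w 0)) d
  have h0 : ∀ U, IsOpen U → PO (lev pr ∅) (φ ⁻¹' U) := fun U hU w hw => by
    obtain ⟨n, hn⟩ := exists_cyl_subset (x := pr (w 0))
      ((hU.preimage (continuous_join d)).mem_nhds hw)
    exact ⟨n + 1, fun w' h' => hn fun q hq =>
      congrArg Prod.fst (h' 0 (by omega) q (lt_trans hq (Nat.lt_succ_self n)))⟩
  have dcd : ∀ B ∈ Cl L {U | IsClopen U}, Dcd (T.R 1) (T.R 1) (φ ⁻¹' B) :=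
    Dcd.cl (φ := φ) L (fun _ _ _ h => h) hT fun B (hB : IsClopen B) =>
      ⟨_, _, h0 _ hB.2, h0 _ hB.1.isOpen_compl, (Gen.of (E := univ)
        (fun _ _ => ⟨0, fun _ _ => trivial⟩) dense_univ).mono fun _ _ => ⟨Iff.rfl, Iff.rfl⟩⟩
  have sg : ∀ A, T.Sg L A → ∃ U, PO (T.R 1) U ∧ ∀ᶠ w in residual _, (φ w ∈ A ↔ w ∈ U) := by
    rintro _ ⟨B, hB, rfl⟩
    choose U V u v E b1 b2 using fun n => dcd _ (hB n)
    refine ⟨⋃ n, U n, .iUnion u, (eventually_countable_forall.2 fun n =>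
      eventually_countable_forall.2 fun j =>
        residual_of_dense_open ((b1 n j).1.isOpen (T.rl 1)) (b1 n j).2).mono fun w hw => ?_⟩
    simp only [mem_iUnion]
    exact exists_congr fun n => (b2 n w (hw n)).1
  choose U1 u1 v1 using fun a => sg _ (h1 a)
  choose U2 u2 v2 using fun a => sg _ (h2 a)
  obtain ⟨G, g1', g2', g3⟩ := mem_residual.1
    ((eventually_countable_forall.2 v1).and (eventually_countable_forall.2 v2))
  let S : Nat.Partrec.Code × ℕ × ℕ → Set (ℕ → Y ℕ) := fun k => {w | w ∈ G ∧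
    U.ev (f (φ w)) k.1 = (fun n => Part.some (bit (P 0 (T.Hl (w 0) 1) n))) ∧
    (∀ n, f (φ w) n = cpl g1 (φ w) (ε1 k.2.1 n)) ∧ ∀ n, f (φ w) n = g2 (φ w) (ε2 k.2.2 n)}
  obtain ⟨z, -, z2⟩ := (g2'.dense_iUnion_interior_of_closed g3 (f := fun k => closure (S k))
    (fun _ => isClosed_closure) fun w hw => by
      have hd : leT d (φ w) := leT_join_right _ d
      obtain ⟨e, he⟩ := U.exists_code (leT_iff.1
        (hh (φ w) _ _ (a3.trans hd) (leT_join_left _ d) (Sc_dec L _ _ _)))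
      obtain ⟨ρ, b1, b2⟩ := e1 _ (a1.trans (a4.trans hd))
      obtain ⟨σ, b3, b4⟩ := e2 _ (a2.trans (a4.trans hd))
      obtain ⟨i, rfl⟩ := hε1 ρ (tr_iff.1 b1)
      obtain ⟨j, rfl⟩ := hε2 σ (tr_iff.1 b3)
      exact mem_iUnion.2 ⟨(e, i, j), subset_closure ⟨hw, he, b2, b4⟩⟩).inter_open_nonempty univ
        isOpen_univ univ_nonempty
  obtain ⟨k, hk⟩ := mem_iUnion.1 z2
  have hb := isOpen_interior.mem_nhds hk
  rw [nhds_pi, Filter.mem_pi'] at hb
  obtain ⟨I, t, ht, hI⟩ := hb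
  obtain ⟨n, n1, n2⟩ := ((eventually_gt_atTop (I.sup id)).and
    ((Finset.eventually_all I).2 fun m _ => ev_cyl (ht m))).exists
  have po : ∀ {α : Type} {p : Y ℕ → ℕ → α} (w : ℕ → Y ℕ) M, Lip id p → IsOpen {w' | Agr p w' w M} :=
    fun w M hp => PO.isOpen (fun w' h => ⟨M, fun w'' h' => h'.trans h le_rfl⟩) hp
  have pick : ∀ W : Set (ℕ → Y ℕ), IsOpen W → ({w | Agr id w z n} ∩ W).Nonempty →
      ∃ w ∈ {w | Agr id w z n} ∩ W, w ∈ S k := fun W hW ⟨w, hw⟩ =>
    mem_closure_iff.1 (interior_subset (hI fun m hm => n2 m hm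
      (hw.1 m ((Finset.le_sup (f := id) hm).trans_lt n1)))) _
      ((po z n fun _ _ _ h => h).inter hW) hw
  have opn : ∀ P : ℕ → Prop, IsOpen {w : ℕ → Y ℕ | P (w 0 n)} := fun P =>
    (isOpen_discrete {d | P d}).preimage ((continuous_apply n).comp (continuous_apply 0))
  have upd : ∀ {α : Type} {p : Y ℕ → ℕ → α} {w w0 : ℕ → Y ℕ} {x : Y ℕ} {M : ℕ}, Agr p w w0 M →
      p x ∈ cylinder (p (w0 0)) M → Agr p (Function.update w 0 x) w0 M :=
    fun h h' m hm => by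
      rcases m with _ | m
      · exact h'
      · exact h _ hm
  have hP : ∀ (y : Y ℕ) n, P 0 (T.Hl y 1) n = true ↔ ∀ s, T.Hl y 1 (Nat.pair n s) = true :=
    fun y n => @decide_eq_true_iff _ (Classical.propDecidable _)
  obtain ⟨w, ⟨y1, y2⟩, y3, y4, y5, y6⟩ := pick _ (opn fun d => d = dc.symm (true, 0))
    ⟨Function.update z 0 (Function.update (z 0) n (dc.symm (true, 0))),
      upd (fun _ _ => self_mem_cylinder _ _) fun i hi => Function.update_of_ne hi.ne _ _, by simp⟩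
  have t1 : P 0 (T.Hl (w 0) 1) n = true := (hP _ n).2 fun s => by
    simp [T.Hl, S1, H.S, cv, tp, show w 0 n = _ from y2]
  obtain ⟨k0, hk0⟩ := exists_cyl_subset (U.ev_open (f (φ w)) k.1 n 1 (by simp [y4, bit, t1]))
  have hM : ∀ a, ∃ M, ∀ w' ∈ S k, Agr (T.R 1) w' w M → f (φ w') a = f (φ w) a := fun a => by
    cases e : f (φ w) a
    · have : g1 (φ w) (ε1 k.2.1 a) = true := by simpa [e, cpl] using y5 a
      obtain ⟨M, hM⟩ := u1 _ w (((g1' y3).1 _).1 this)
      refine ⟨M, fun w' b b' => ?_⟩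
      have : g1 (φ w') (ε1 k.2.1 a) = true := ((g1' b.1).1 _).2 (hM w' b')
      simp [b.2.2.1 a, cpl, this]
    · obtain ⟨M, hM⟩ := u2 _ w (((g1' y3).2 _).1 ((y6 a).symm.trans e))
      exact ⟨M, fun w' b b' => (b.2.2.2 a).trans (((g1' b.1).2 _).2 (hM w' b'))⟩
  choose M hM using hM
  have t0 : w 0 ∈ cylinder (Function.update (w 0) n (dc.symm (false, 0))) n :=
    fun i hi => by rw [Function.update_of_ne hi.ne]
  obtain ⟨x, k1, k2, k3⟩ := amal' 0 (w 0) _ n ((Finset.range k0).sup M) (T.rl 0 t0)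
  obtain ⟨w', ⟨-, b2, b3⟩, b4⟩ := pick _
    ((po w ((Finset.range k0).sup M) (T.rl 1)).inter (opn fun d => (dc d).1 = false))
    ⟨Function.update w 0 x, upd y1 (cyl_trans k1 (cyl_trans (cyl_symm t0) (y1 0 (by omega)))),
      upd (fun _ _ => self_mem_cylinder _ _) k2, by simpa [tp] using congrFun k3 n⟩
  have t2 : f (φ w') ∈ cylinder (f (φ w)) k0 := fun a ha =>
    hM a w' b4 (agr_mono b2 (Finset.le_sup (Finset.mem_range.2 ha)))
  have t3 : P 0 (T.Hl (w' 0) 1) n = true :=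
    by_contra fun h => by simpa [b4.2.1, bit, h] using hk0 t2
  obtain ⟨s, hs⟩ := (S1_lim 0 (T.Hl (w' 0) 0) (cv (w' 0) 0) n).exists
  have t4 := hs.symm.trans ((hP _ n).1 t3 s)
  exact Bool.false_ne_true ((show tp (w' 0) n = false from b3).symm.trans t4)

/-- The statement of `Pure`. -/
def Pu : Prop :=
  ∀ (L : Lay) (f π : Cs → Cs) (c : Cs), (∀ x y, leT c x → leT x y → leM (f x) (f y)) →
    (∀ x, leT c x → leT (π x) x ∧ leT x (π x)) →
    (∀ a, {x | f (π x) a = true} ∈ Cl .one (Cl L {U | IsClopen U})) →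
    (∀ g : Cs → Cs, (∀ a, T.Sg L {x | g x a = true}) → leCone g f) ∨
      ∃ g : Cs → Cs, (∀ a, T.Sg L {x | g x a = true}) ∧ leCone f (cpl g)

theorem cone_cpl {f g : Cs → Cs} (h : leCone f g) : leCone (cpl f) (cpl g) :=
  h.imp fun _ h x hx => (h x hx).imp fun _ h => ⟨h.1, fun n => congrArg (!·) (h.2 n)⟩

theorem cpl_cpl (f : Cs → Cs) : cpl (cpl f) = f := by
  funext x n
  simp [cpl]

theorem cl_compl (L : Lay) : ∀ {C : Set (Set Cs)}, (∀ A ∈ C, Aᶜ ∈ C) → ∀ A ∈ Cl L C, Aᶜ ∈ Cl L C := by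
  induction L with
  | zero => exact fun h => h
  | one => exact fun h A ⟨B, b, b'⟩ =>
      ⟨fun s => (B s)ᶜ, fun s => h _ (b s), fun y => (b' y).mono fun _ h => not_congr h⟩
  | sum L ih =>
    intro C h A hA
    obtain ⟨n, hn⟩ := mem_iUnion.1 hA
    refine mem_iUnion.2 ⟨n, ?_⟩
    induction n generalizing A with
    | zero => exact h A hn
    | succ n h' => exact ih n (fun A hA => h' A (mem_iUnion.2 ⟨n, hA⟩) hA) A hn

/-- The statement of `Successor`. -/
theorem successor (H : Pu) (L : Lay) (f π : Cs → Cs) (c : Cs)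
    (hop : ∀ x y, leT c x → leT x y → leM (f x) (f y))
    (hT : ∀ x, leT c x → leT (π x) x ∧ leT x (π x))
    (hb : ∀ a, {x | f (π x) a = true} ∈ Cl .one (Cl L {U | IsClopen U}))
    (hh : ∀ x z v, leT c x → leT z x → Dec L z v → leT (P 0 v) (f x)) :
    ∃ b : Bool, ∀ g : Cs → Cs, (∀ a, T.Sg L {x | g x a = true}) →
      leCone (fun x n => xor (g x n) b) f := by
  rcases H L f π c hop hT hb with h | ⟨g1, h1, e1⟩
  · exact ⟨false, fun g hg => by simpa using h g hg⟩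
  rcases H L (cpl f) π c (fun x y hx hy => (hop x y hx hy).imp fun _ h =>
      ⟨h.1, fun n => congrArg (!·) (h.2 n)⟩) hT (fun a => by
      convert cl_compl .one (cl_compl L (C := {U | IsClopen U}) fun _ h => IsClopen.compl h) _
        (hb a) using 1
      ext x
      simp [cpl]) with h | ⟨g2, h2, e2⟩
  · refine ⟨true, fun g hg => ?_⟩
    have := cone_cpl (h g hg)
    rw [cpl_cpl] at this
    simp only [Bool.xor_true]
    exact this
  · have := cone_cpl e2
    rw [cpl_cpl, cpl_cpl] at this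
    exact (not_low hh h1 h2 e1 this).elim

end Pool.Agent.Lib.MP_5684f0_lc.Q.Low
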