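import Pool.Agent.Lib.MP_5684f0_lc.N.Main
import Pool.Agent.Lib.MP_5684f0_lc.Q.Run

/-! An order preserving function of level one above a code lies above all additive sets of that
level or above their complements. -/

namespace Pool.Agent.Lib.MP_5684f0_lc.Q

open Filter Topology Set PiNat G T N

theorem succ0 {L : Lay} {f : Cs → Cs} (hf : Measurable f) (hop : OP f)
    (hb : ∀ a, {x | f x a = true} ∈ Cl .one (Cl L {U | IsClopen U}))
    (hh : ∀ z v, Dec L z v → leT (P 0 v) (f z)) : ∃ b : Bool, ∀ g : Cs → Cs,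
      (∀ a, T.Sg L {x | g x a = true}) → leCone (fun x n => xor (g x n) b) f := by
  classical
  let Y := Y ℕ
  let pr : Y → Cs := fun y => Sc L 0 (fun a => cv y (a + 1)) (T.Hl y 1)
  have hT : Tower L 0 (T.R 1) (lev pr ∅) := tower L 0 (add_left_injective 1) (empty_subset _)
    (fun a => ⟨Nat.le_add_left 1 a, notMem_empty _⟩) (ind_Hl 1)
  have continuous_pr : Continuous pr :=
    continuous_pi fun q => continuous_iff_continuousAt.2 fun y => continuousAt_const.congr
      (Eventually.mono ((cyl_open y (q + 1)).mem_nhds (self_mem_cylinder y _)) fun _ h =>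
        ((lev_iff.1 (hT.lip (T.rl 1 h))).1 q (Nat.lt_succ_self q)).symm)
  obtain ⟨e, he⟩ := exists_enum
  have mb : ∀ {X : Type} [TopologicalSpace X] [MeasurableSpace X] [BorelSpace X] {φ : X → Cs},
      Continuous φ → ∀ n, Measurable fun x => f (φ x) n :=
    fun hφ n => (measurable_pi_apply n).comp (hf.comp hφ.measurable)
  choose V hV hV' using fun (a : ℕ) (b : Bool) =>
    (mb continuous_pr a (measurableSet_singleton b)).residualEq_isOpen
  have hG : ∀ᶠ y in residual Y, ∀ a b, f (pr y) a = b ↔ y ∈ V a b :=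
    eventually_countable_forall.2 fun a => eventually_countable_forall.2 fun b =>
      (hV' a b).mem_iff
  let cd : (ℕ → Y) → Cs := fun w => code fun m => pr (w m)
  have hcd : Continuous cd := continuous_code.comp
    (continuous_pi fun m => continuous_pr.comp (continuous_apply m))
  have hsh : ∀ i, Continuous fun (w : ℕ → Y) m => w (m + i) := fun i =>
    continuous_pi fun m => continuous_apply _
  let Z0 : ℕ → Set (ℕ → Y) := fun d =>
    (⋂ n, {w | f (cd fun m => w (m + 1)) n = f (cd w) (e d.unpair.1 n)}) ∩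
      ⋂ n, {w | f (pr (w 0)) n = f (cd w) (e d.unpair.2 n)}
  choose Z hZ hZ' using fun d => MeasurableSet.residualEq_isOpen (s := Z0 d)
    ((MeasurableSet.iInter fun n => measurableSet_eq_fun (mb (hcd.comp (hsh 1)) n) (mb hcd _)).inter
      (.iInter fun n => measurableSet_eq_fun
        (mb (continuous_pr.comp (continuous_apply 0)) n) (mb hcd _)))
  have hZ1 : ∀ᶠ w in residual (ℕ → Y), ∀ d, w ∈ Z0 d ↔ w ∈ Z d :=
    eventually_countable_forall.2 fun d => (hZ' d).mem_iff
  have hd : Dense (⋃ d, Z d) := dense_of_mem_residual (hZ1.mono fun w hw => by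
    obtain ⟨ρ, hρ, h1⟩ := hop _ _ (leT_code_shift fun m => pr (w m))
    obtain ⟨σ, hσ, h2⟩ := hop _ _ (leT_code_zero fun m => pr (w m))
    obtain ⟨i, rfl⟩ := he ρ hρ
    obtain ⟨j, rfl⟩ := he σ hσ
    exact mem_iUnion.2 ⟨Nat.pair i j, (hw _).1 ⟨mem_iInter.2 fun n => by
      simpa only [Nat.unpair_pair, mem_ofPred_eq] using h1 n, mem_iInter.2 fun n => by
      simpa only [Nat.unpair_pair, mem_ofPred_eq] using h2 n⟩⟩)
  have hso : ∀ i, IsOpenMap fun (w : ℕ → Y) m => w (m + i) := fun i => .of_sections fun w =>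
    ⟨fun v m => if m < i then w m else v (m - i), (continuous_pi fun m => by
      split_ifs; exacts [continuous_const, continuous_apply _]).continuousAt,
      funext fun m => by
        dsimp only; split_ifs with h; exacts [rfl, by rw [Nat.sub_add_cancel (not_lt.1 h)]],
      fun v => funext fun m => by simp⟩
  have gd : ∀ φ : (ℕ → Y) → Cs, (∀ w n, ∃ M, ∀ w', Agr (lev pr ∅) w' w M →
      φ w' ∈ cylinder (φ w) n) → ∀ a b, Gd (T.R 1) {w | f (φ w) a = b} := fun φ hφ a b => by
    have h0 : ∀ U, IsOpen U → PO (lev pr ∅) (φ ⁻¹' U) := fun U hU w hw => by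
      obtain ⟨n, hn⟩ := exists_cyl_subset (hU.mem_nhds hw)
      exact (hφ w n).imp fun _ h w' h' => hn (h w' h')
    obtain ⟨B, b1, b2⟩ := hb a
    have h1 := Gd.lim (A := φ ⁻¹' {x | f x a = true}) (fun s => Dcd.cl (φ := φ) L
      (fun _ _ _ h => h) hT (fun B (hB : IsClopen B) =>
        ⟨_, _, h0 _ hB.2, h0 _ hB.1.isOpen_compl, (Gen.of (E := univ)
          (fun _ _ => ⟨0, fun _ _ => trivial⟩) dense_univ).mono fun _ _ => ⟨Iff.rfl, Iff.rfl⟩⟩) _
      (b1 s)) fun w => b2 (φ w)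
    cases b
    · convert h1.2 using 1
      ext w
      simp
    · exact h1.1
  have g1 : ∀ j : ℕ → ℕ, ∀ a b, Gd (T.R 1) {w | f (cd fun m => w (j m)) a = b} := fun j =>
    gd _ fun w n => ⟨n + (Finset.range n).sup j + 1, fun w' h q hq => by
      have := Nat.unpair_left_le q
      have := Nat.unpair_right_le q
      have := Finset.le_sup (f := j) (Finset.mem_range.2 (show q.unpair.1 < n by omega))
      exact congrArg Prod.fst (h (j q.unpair.1) (by omega) q.unpair.2 (by omega))⟩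
  have g2 : ∀ i a b, Gd (T.R 1) {w | f (pr (w i)) a = b} := fun i =>
    gd _ fun w n => ⟨n + i + 1, fun w' h q hq => congrArg Prod.fst (h i (by omega) q (by omega))⟩
  obtain ⟨A', U, E, r1, r2, r3, r4⟩ := robust (T.rl 1)
    (X := fun k => if k.unpair.2.unpair.2 = 0 then
      {w | (fun m => w (m + k.unpair.1)) ∈ Z0 k.unpair.2.unpair.1} else
      {w | f (pr (w k.unpair.1)) k.unpair.2.unpair.1 = decide (k.unpair.2.unpair.2 = 1)})
    (A := fun k => if k.unpair.2.unpair.2 = 0 then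
      {w | (fun m => w (m + k.unpair.1)) ∈ Z k.unpair.2.unpair.1} else
      {w | w k.unpair.1 ∈ V k.unpair.2.unpair.1 (decide (k.unpair.2.unpair.2 = 1))})
    (fun k => by
      split_ifs
      · simp only [Z0, mem_inter_iff, mem_iInter]
        exact (Gd.all fun n => Gd.eq (g1 (fun m => m + 1 + k.unpair.1) n)
          (g1 (· + k.unpair.1) _)).and
          (Gd.all fun n => Gd.eq (g2 (0 + k.unpair.1) n) (g1 (· + k.unpair.1) _))
      · exact g2 _ _ _)
    (fun k => by
      split_ifs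
      exacts [(hZ _).preimage (hsh _), (hV _ _).preimage (continuous_apply _)])
    fun k => by
      split_ifs
      exacts [((tendsto_residual_of_isOpenMap (hsh _) (hso _)).eventually hZ1).mono
        fun w h => (h _).2, ((tendsto_residual_of_isOpenMap (continuous_apply (A := fun _ : ℕ => Y) _)
          (isOpenMap_eval _)).eventually hG).mono fun w h => (h _ _).2]
  obtain ⟨O0, N, d, o1, o2, o3⟩ := base (Q := Dir V)
    (fun O N ⟨_, _, y, l, h1, h2, _⟩ => ⟨h1 ▸ cyl_open y l, ⟨y, h1 ▸ self_mem_cylinder y l⟩,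
      h2.trans inter_subset_left⟩) (exists_dir (h := fun y => f (pr y)) hV
    (hG.mono fun y hy a => (hy a _).1 rfl) fun y => by
      have : P 1 (T.Hl y 2) = P 0 (T.Hl y 1) := by
        unfold P
        rw [T.T_Hl y 1 true 1]
        rfl
      exact this ▸ hh _ _ (Sc_dec L _ _ _)) hZ hd
    (fun j => (r2 j).1) fun j => (r2 j).2
  choose a b0 y0 l0 d1 d2 d3 using fun m => (o1 m).2
  let O : ℕ → Set Y := fun m => O0 m ∩ ⋃ z ∈ N m, {x | T.R 1 x ∈ cylinder (T.R 1 z) (max (l0 m) m)}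
  have hO : ∀ m, IsOpen (O m) := fun m =>
    (o1 m).1.inter (isOpen_biUnion fun _ _ => op_of (T.rl 1) _ _)
  have hN : ∀ m, N m ⊆ O m ∩ V (a m) (b0 m) := fun m x hx =>
    ⟨⟨(d2 m hx).1, mem_biUnion hx (self_mem_cylinder _ _)⟩, (d2 m hx).2⟩
  have hS : Sm O N (T.R 1) := fun m x hx => by
    obtain ⟨z, z1, z2⟩ := mem_iUnion₂.1 hx.2
    have h1 : cylinder z (max (l0 m) m) ⊆ N m := fun v hv => by
      rw [d1 m] at z1 ⊢
      exact cyl_trans (cylinder_anti _ (le_max_left _ _) hv) z1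
    exact ⟨z, _, le_max_right _ _, fun v hv => ⟨h1 hv, (hN m (h1 hv)).1⟩, z2⟩
  have hO' : Opn O := fun w hw b => by
    obtain ⟨l, h1, h2⟩ := ((eventually_ge_atTop b).and ((Finset.eventually_all (Finset.range b)).2
      fun m _ => ev_cyl ((hO m).mem_nhds (hw m)))).exists
    exact ⟨l, h1, fun m hm => h2 m (Finset.mem_range.2 hm)⟩
  obtain ⟨b, hinf⟩ := Finite.exists_infinite_fiber b0
  let ε := Infinite.natEmbedding (b0 ⁻¹' {b})
  refine ⟨b, fun g hg => ?_⟩
  choose B B1 B2 using hg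
  obtain ⟨hC, -⟩ := Good.ms L 0 good_C0
  choose tm hT' using fun k n => Cl.ms L 0 good_C0 (fun U (hU : IsClopen U) => ⟨0, fun y _ => mem_nhdsWithin_of_mem_nhds (by
      by_cases h : y ∈ U
      · filter_upwards [hU.2.mem_nhds h] with y' h' using by simp [h, h']
      · filter_upwards [hU.1.isOpen_compl.mem_nhds h] with y' h' using
          propext (iff_of_false h' h))⟩) _ (B1 k n)
  obtain ⟨τ, ⟨o, t0⟩, t1, t2⟩ := build (V := fun m => V (a m)) (T.rl 1) hO (fun _ _ => hV _ _) hN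
    (fun m x hx l => by
      obtain ⟨x', x1, x2⟩ := d3 m x hx.1 (max l (max (l0 m) m))
      obtain ⟨z, z1, z2⟩ := mem_iUnion₂.1 hx.2
      exact ⟨x', ⟨⟨x1.1, mem_biUnion z1 (cyl_trans (cylinder_anti _ (le_max_right _ _) x2) z2)⟩,
        x1.2⟩, cylinder_anti _ (le_max_left _ _) x2⟩) o3 r1 r3 hC
    (u := fun y t m => decide (∃ q, (if q < t then tm q.unpair.1 q.unpair.2 ≤ t ∧
      y ∈ B q.unpair.1 q.unpair.2 else False) ∧ (ε q.unpair.1).1 = m)) fun t =>
    hC.fin (φ := fun q y => tm q.unpair.1 q.unpair.2 ≤ t ∧ y ∈ B q.unpair.1 q.unpair.2) _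
      (fun v m => decide (∃ q, v q ∧ (ε q.unpair.1).1 = m)) t fun q _ => by
        by_cases h : tm q.unpair.1 q.unpair.2 ≤ t
        · exact hC.map (fun a => tm q.unpair.1 q.unpair.2 ≤ t ∧ a) (hC.mono h (hT' _ _))
        · simpa [h] using hC.const t False
  let G : Cs → Cs := fun y m => decide (∃ k, (ε k).1 = m ∧ g y k = true)
  obtain ⟨w, w1, w2⟩ := Q.run0 hO' (T.rl 1) hT hS (τ := τ) (t0 ▸ good_C0.const 0 _) t1
    (G := fun y z => ∀ k, (∀ w : ℕ → Y, (∀ m, w m ∈ O m) →
      (∀ m ≤ k, w m ∈ V (a m) (xor (G y m) (b0 m))) → w ∈ A' k) → z ∈ U k) fun y π h =>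
      t2 y π (G y) (fun m => by
        simp only [G, decide_eq_true_eq, if_false_right]
        refine ⟨fun ⟨k, h1, h2⟩ => ?_, fun ⟨t, _, q, h1, h2⟩ =>
          ⟨_, h2, (B2 _).ge (mem_iUnion.2 ⟨_, h1.2.2⟩)⟩⟩
        obtain ⟨n, hn⟩ := mem_iUnion.1 ((B2 k).le h2)
        exact ⟨m + Nat.pair k n + tm k n + 1, by omega, Nat.pair k n, by
          simp only [Nat.unpair_pair]; exact ⟨⟨by omega, by omega, hn⟩, h1⟩⟩) h
  have hw := fun y => r4 (fun k w => (∀ m, w m ∈ O m) ∧
    ∀ m ≤ k, w m ∈ V (a m) (xor (G y m) (b0 m))) (fun k k' w h h' =>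
      ⟨h'.1, fun m hm => h'.2 m (hm.trans h)⟩) (w y) fun k h => w2 y k fun w h1 h2 => h w ⟨h1, h2⟩
  have hz : ∀ y i, (fun m => w y (m + i)) ∈ Z0 (d i) := fun y i => by
    simpa using hw y (Nat.pair i (Nat.pair (d i) 0)) fun w h => by
      simpa using o2 i w fun m => (h.1 m).1
  have hv : ∀ y m, f (pr (w y m)) (a m) = xor (G y m) (b0 m) := fun y m => by
    have h1 := hw y (Nat.pair m (Nat.pair (a m) (if xor (G y m) (b0 m) then 1 else 2)))
    have h2 := fun w : ℕ → Y => fun h : ∀ m' ≤ Nat.pair m (Nat.pair (a m)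
      (if xor (G y m) (b0 m) then 1 else 2)), w m' ∈ V (a m') (xor (G y m') (b0 m')) =>
        h m (Nat.left_le_pair _ _)
    revert h1 h2
    cases xor (G y m) (b0 m) <;> intro h1 h2 <;> simpa using h1 fun w h => by simpa using h2 w h.2
  let κ : ℕ → ℕ → ℕ := fun i => Nat.rec id (fun i k n => k (e (d i).unpair.1 n)) i
  obtain ⟨c, hc⟩ := exists_leT_of_lc (Y := univ) (θ := fun y => cd (w y))
    fun n y hy => (w1 _ _ y hy).mono fun _ h => congrArg Prod.fst h
  obtain ⟨c', hc'⟩ := exists_rec fun k => κ (ε k) (e (d (ε k)).unpair.2 (a (ε k)))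
  obtain ⟨c2, h1, h2⟩ := exists_upper2 c c'
  refine ⟨c2, fun y hy => ?_⟩
  obtain ⟨ρ, hρ, h⟩ := hop _ _ (hc y trivial (h1.trans hy))
  refine ⟨_, tr_iff.2 ((Rec.of_computable hρ).comp (hc'.mono h2)), fun m => ?_⟩
  have hκ : ∀ i n, f (cd fun m => w y (m + i)) n = f (cd (w y)) (κ i n) := by
    intro i
    induction i with
    | zero => exact fun n => rfl
    | succ i ih =>
      intro n
      have h1 := mem_iInter.1 (hz y i).1 n
      simp only [mem_ofPred_eq, Nat.add_right_comm _ 1 i] at h1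
      exact h1.trans (ih _)
  have h3 := mem_iInter.1 (hz y (ε m)).2 (a (ε m))
  simp only [mem_ofPred_eq, Nat.zero_add] at h3
  have h4 : G y (ε m) = g y m := Bool.eq_iff_iff.2 (by
    simpa [G] using ⟨fun ⟨k, h, h'⟩ => ε.injective (Subtype.ext h) ▸ h', fun h => ⟨m, rfl, h⟩⟩)
  dsimp only
  have h5 := hv y (ε m)
  rw [h4, show b0 (ε m) = b from (ε m).2] at h5
  rw [← h5, h3, hκ, h]

theorem succ {L : Lay} {f π : Cs → Cs} {c : Cs} (hf : Measurable f)
    (hop : ∀ x y, leT c x → leT x y → leM (f x) (f y)) (hπ : Continuous π)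
    (hT : ∀ x, leT c x → leT (π x) x ∧ leT x (π x))
    (hb : ∀ a, {x | f (π x) a = true} ∈ Cl .one (Cl L {U | IsClopen U}))
    (hh : ∀ x z v, leT c x → leT z x → Dec L z v → leT (P 0 v) (f x)) : ∃ b : Bool,
      ∀ g : Cs → Cs, (∀ a, T.Sg L {x | g x a = true}) → leCone (fun x n => xor (g x n) b) f := by
  have hc : ∀ x, leT c (π (join x c)) := fun x =>
    (leT_join_right x c).trans (hT _ (leT_join_right x c)).2
  obtain ⟨b, h⟩ := succ0 (L := L) (f := fun x => f (π (join x c)))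
    (hf.comp (hπ.comp (continuous_join c)).measurable)
    (fun x y hxy => hop _ _ (hc x) ((hT _ (leT_join_right x c)).1.trans ((join_leT
      (hxy.trans (leT_join_left y c)) (leT_join_right y c)).trans (hT _ (leT_join_right y c)).2)))
    (fun a => cl_pre (φ := fun x => join x c) .one (cl_pre L (C := {U | IsClopen U})
      fun _ (h : IsClopen _) => h.preimage (continuous_join c)) _ (hb a))
    fun z v => hh _ _ v (hc z) ((leT_join_left z c).trans (hT _ (leT_join_right z c)).2)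
  exact ⟨b, fun g hg => leCone_of (c := c) (c' := c) (h g hg)
    (fun _ _ => ⟨id, Computable.id, fun _ => rfl⟩) fun x hx => hop _ _ (hc x)
      ((hT _ (leT_join_right x c)).1.trans (join_leT (leT_refl x) hx))⟩

end Pool.Agent.Lib.MP_5684f0_lc.Q
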