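import Pool.Agent.Lib.MP_5684f0_lc.Q.Main
import Pool.Agent.Lib.MP_5684f0_lc.T.Bor

/-! No regularity of the function is needed beyond the class of its bits (remark of helper3). -/

namespace Pool.Agent.Lib.MP_5684f0_lc.Q

theorem succ' {L : T.Lay} {f π : Cs → Cs} {c : Cs}
    (hop : ∀ x y, leT c x → leT x y → leM (f x) (f y))
    (hT : ∀ x, leT c x → leT (π x) x ∧ leT x (π x))
    (hb : ∀ a, {x | f (π x) a = true} ∈ T.Cl .one (T.Cl L {U | IsClopen U}))
    (hh : ∀ x z v, leT c x → leT z x → T.Dec L z v → leT (G.P 0 v) (f x)) :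
    ∃ b : Bool, ∀ g : Cs → Cs, (∀ a, T.Sg L {x | g x a = true}) →
      leCone (fun x n => xor (g x n) b) f := by
  obtain ⟨b, h⟩ := succ (L := L) (f := fun x => f (π x)) (π := id) (c := c)
    (measurable_pi_lambda _ fun n => measurable_to_bool (T.Bor.Cl_borel .one _
      (T.Bor.Cl_borel L _ fun _ h => IsOpen.measurableSet (IsClopen.isOpen h)) _ (hb n)))
    (fun x y hx hxy => hop _ _ (hx.trans (hT x hx).2)
      ((hT x hx).1.trans (hxy.trans (hT y (hx.trans hxy)).2)))
    continuous_id (fun x _ => ⟨leT_refl x, leT_refl x⟩) hb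
    fun x z v hx hz hv => hh _ z v (hx.trans (hT x hx).2) (hz.trans (hT x hx).2) hv
  exact ⟨b, fun g hg => leCone_of (c := c) (c' := c) (h g hg)
    (fun _ _ => ⟨id, Computable.id, fun _ => rfl⟩)
    fun x hx => hop _ _ (hx.trans (hT x hx).2) (hT x hx).1⟩

end Pool.Agent.Lib.MP_5684f0_lc.Q
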